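import Mathlib
import Pool.Agent.Q29.TE.RowsDefs

/-!
# Properties of slope types for all CM fields
-/

set_option autoImplicit false

namespace Pool.Agent.Q29.BX

open NumberField Module Pool.Agent.H204R3.CM Pool.Agent.H977R3.CM Pool.Agent.Q29.TE

/-- The functions `D` on the complex embeddings of `E` with `D φ̄ = - D φ`, `|D φ| ≤ m` and `D φ`
congruent to `m` modulo 2. There are `(m + 1) ^ g` such functions if `[E : ℚ] = 2 g`; they are the
differences `r φ - r φ̄` for the functions `r` with values in `{0, 1, …, m}` and `r φ + r φ̄ = m`. -/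
def Box (E : Type) [Field E] (m : ℕ) : Set ((E →+* ℂ) → ℤ) :=
  {D | ∀ φ, D (ComplexEmbedding.conjugate φ) = -D φ ∧ |D φ| ≤ m ∧ Even (m + D φ)}

/-- **Almost all slope functions with large denominators of all CM fields**, of all degrees, without
any condition on the Galois group or the subfields. Let `K i` be pairwise independent CM fields of
degrees `2 g i`. A slope function with values in `{0, 1 / m, …, 1}` is `(1 + D / m) / 2` with a
function `D` in `Box m`. The property `Q` of the weights `|D i|` and the types `Φ i` with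
`D i ≥ 0` on `Φ i` is false for at most a proportion `∑ g i / (m i + 1)` of all
`∏ (m i + 1) ^ (g i)` families of functions `D i` in `Box (m i)`. -/
def AllFields (Q : TypeProperty) : Prop :=
  ∀ (p : ℕ) [hp : Fact p.Prime] (ν : PadicAlgCl p ≃+* ℂ) (I : Type) [hI : Fintype I]
    (K : I → Type) [hK : ∀ i, Field (K i)] [hN : ∀ i, NumberField (K i)]
    [hC : ∀ i, IsCMField (K i)] (m g : I → ℕ), PairwiseIndep K →
    (∀ i, finrank ℚ (K i) = 2 * g i) →
    (({D : ∀ i, (K i →+* ℂ) → ℤ | (∀ i, D i ∈ Box (K i) (m i)) ∧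
      ¬ ∀ Φ : ∀ i, Set (K i →+* ℂ), (∀ i, IsCMType (Φ i)) → (∀ i, ∀ φ ∈ Φ i, 0 ≤ D i φ) →
        Q p hp ν I hI K hK hN hC (fun i φ => |D i φ|) Φ}.ncard : ℕ) : ℝ) ≤
      (∑ i, (g i : ℝ) / (m i + 1)) * ∏ i, ((m i : ℝ) + 1) ^ g i

end Pool.Agent.Q29.BX
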