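import Mathlib
import Pool.Agent.Q29.OS.Tower
import Pool.Agent.TH170.MF.Field
import Pool.Agent.TH170.QD.Family
import Pool.Agent.Q29.OS.Law
import Pool.Agent.Q29.BX.RowsDefs

/-!
# Almost all odd functions with values in a large box have no relations, for every CM field
-/

set_option autoImplicit false
set_option linter.unusedSectionVars false
set_option linter.unusedVariables false

namespace Pool.Agent.Q29.BX

open NumberField Module Finset Pool.Agent.H204R3.CM Pool.Agent.H977R3.CM Pool.Agent.TH170.CM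
  Pool.Agent.Q29.OS

section one

variable {E : Type} [Field E] [NumberField E] [IsCMField E] {Φ : Set (E →+* ℂ)}

open Classical in
/-- The odd function with given values on the type. -/
noncomputable def oddExt {R : Type} [Neg R] [Zero R] (Φ : Set (E →+* ℂ)) (x : (E →+* ℂ) → R)
    (φ : E →+* ℂ) : R :=
  if φ ∈ Φ then x φ else -x (ComplexEmbedding.conjugate φ)

theorem conj_conj (φ : E →+* ℂ) :
    ComplexEmbedding.conjugate (ComplexEmbedding.conjugate φ) = φ := star_star φ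

theorem conj_mem (hΦ : IsCMType Φ) {φ : E →+* ℂ} (h : φ ∉ Φ) :
    ComplexEmbedding.conjugate φ ∈ Φ := by
  by_contra h3
  exact h ((hΦ φ).2 h3)

theorem oddExt_self (hΦ : IsCMType Φ) {D : (E →+* ℂ) → ℤ}
    (hD : ∀ φ, D (ComplexEmbedding.conjugate φ) = -D φ) : oddExt Φ D = D := by
  funext φ
  unfold oddExt
  split_ifs with h
  · rfl
  · rw [hD, neg_neg]

theorem oddExt_congr (hΦ : IsCMType Φ) {x y : (E →+* ℂ) → ℤ} (h : ∀ φ ∈ Φ, x φ = y φ) :
    oddExt Φ x = oddExt Φ y := by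
  funext φ
  unfold oddExt
  split_ifs with h1
  · exact h φ h1
  · rw [h _ (conj_mem hΦ h1)]

theorem oddExt_odd (hΦ : IsCMType Φ) (x : (E →+* ℂ) → ℤ) (φ : E →+* ℂ) :
    oddExt Φ x (ComplexEmbedding.conjugate φ) = -oddExt Φ x φ := by
  unfold oddExt
  by_cases h : φ ∈ Φ
  · rw [if_neg ((hΦ φ).1 h), if_pos h, conj_conj]
  · rw [if_pos (conj_mem hΦ h), if_neg h, neg_neg]

/-- The type has half of the embeddings. -/
theorem card_type (hΦ : IsCMType Φ) {g : ℕ} (hg : finrank ℚ E = 2 * g) : Nat.card Φ = g := by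
  classical
  have h1 : Fintype.card (E →+* ℂ) = 2 * g := by
    rw [Embeddings.card, hg]
  have h2 : Nat.card Φ = Nat.card (Φᶜ : Set (E →+* ℂ)) := by
    refine Nat.card_congr ⟨fun φ => ⟨ComplexEmbedding.conjugate φ.1, (hΦ _).1 φ.2⟩,
      fun φ => ⟨ComplexEmbedding.conjugate φ.1, conj_mem hΦ φ.2⟩, fun φ => ?_, fun φ => ?_⟩
    · exact Subtype.ext (conj_conj _)
    · exact Subtype.ext (conj_conj _)
  have h3 : Nat.card Φ + Nat.card (Φᶜ : Set (E →+* ℂ)) = 2 * g := by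
    rw [Nat.card_coe_set_eq, Nat.card_coe_set_eq, Set.ncard_add_ncard_compl,
      Nat.card_eq_fintype_card, h1]
  omega

theorem exists_type (E : Type) [Field E] [NumberField E] [IsCMField E] {g : ℕ}
    (hg : finrank ℚ E = 2 * g) : ∃ Φ : Set (E →+* ℂ), IsCMType Φ := by
  have h1 := Pool.Agent.TH170.QD.ncard_cmTypes E hg
  have h2 : {Φ : Set (E →+* ℂ) | IsCMType Φ}.Nonempty := by
    rw [← Set.ncard_pos (Set.toFinite _), h1]
    positivity
  exact h2

theorem sum_odd (hΦ : IsCMType Φ) {g : ℕ} (e : Fin g ≃ Φ) {a : (E →+* ℂ) → ℤ}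
    (ha : ∀ φ, a (ComplexEmbedding.conjugate φ) = a φ) :
    ∑ φ, a φ = 2 * ∑ i, a (e i).1 := by
  classical
  have h1 : ∑ φ, a φ = ∑ φ ∈ univ.filter (· ∈ Φ), a φ + ∑ φ ∈ univ.filter (· ∉ Φ), a φ :=
    (sum_filter_add_sum_filter_not univ (· ∈ Φ) a).symm
  have h2 : ∑ φ ∈ univ.filter (· ∉ Φ), a φ = ∑ φ ∈ univ.filter (· ∈ Φ), a φ := by
    refine sum_nbij' (fun φ => ComplexEmbedding.conjugate φ)
      (fun φ => ComplexEmbedding.conjugate φ) ?_ ?_ ?_ ?_ ?_
    · intro φ hφ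
      rw [mem_filter] at hφ ⊢
      exact ⟨mem_univ _, conj_mem hΦ hφ.2⟩
    · intro φ hφ
      rw [mem_filter] at hφ ⊢
      exact ⟨mem_univ _, (hΦ φ).1 hφ.2⟩
    · intro φ _
      exact conj_conj φ
    · intro φ _
      exact conj_conj φ
    · intro φ _
      exact (ha φ).symm
  have h3 : ∑ φ ∈ univ.filter (· ∈ Φ), a φ = ∑ i, a (e i).1 := by
    symm
    refine sum_bij (fun i _ => (e i).1) ?_ ?_ ?_ ?_
    · intro i _
      rw [mem_filter]
      exact ⟨mem_univ _, (e i).2⟩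
    · intro i _ j _ hij
      exact e.injective (Subtype.ext hij)
    · intro φ hφ
      rw [mem_filter] at hφ
      exact ⟨e.symm ⟨φ, hφ.2⟩, mem_univ _, by simp⟩
    · intro i _
      rfl
  rw [h1, h2, h3]
  ring

/-- The values on a type, as a polynomial function. -/
noncomputable def polyExt (Φ : Set (E →+* ℂ)) {g : ℕ} (e : Fin g ≃ Φ) (φ : E →+* ℂ) :
    MvPolynomial (Fin g) ℤ :=
  open Classical in
  if h : φ ∈ Φ then MvPolynomial.X (e.symm ⟨φ, h⟩) else
    if h' : ComplexEmbedding.conjugate φ ∈ Φ then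
      -MvPolynomial.X (e.symm ⟨ComplexEmbedding.conjugate φ, h'⟩) else 0

theorem polyExt_degree {g : ℕ} (e : Fin g ≃ Φ) (φ : E →+* ℂ) :
    (polyExt Φ e φ).totalDegree ≤ 1 := by
  unfold polyExt
  split_ifs
  · rw [MvPolynomial.totalDegree_X]
  · rw [MvPolynomial.totalDegree_neg, MvPolynomial.totalDegree_X]
  · rw [MvPolynomial.totalDegree_zero]
    exact Nat.zero_le _

theorem eval_polyExt (hΦ : IsCMType Φ) {g : ℕ} (e : Fin g ≃ Φ) {D : (E →+* ℂ) → ℤ}
    (hD : ∀ φ, D (ComplexEmbedding.conjugate φ) = -D φ) (φ : E →+* ℂ) :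
    MvPolynomial.eval (fun i => D (e i).1) (polyExt Φ e φ) = D φ := by
  unfold polyExt
  split_ifs with h h'
  · rw [MvPolynomial.eval_X, Equiv.apply_symm_apply]
  · rw [map_neg, MvPolynomial.eval_X, Equiv.apply_symm_apply, hD, neg_neg]
  · exact absurd (conj_mem hΦ h) h'

/-- The determinant. -/
noncomputable def detPoly (Φ : Set (E →+* ℂ)) {g : ℕ} (e : Fin g ≃ Φ) (σ : Fin g → ℂ ≃+* ℂ) :
    MvPolynomial (Fin g) ℤ :=
  (Matrix.of fun j i => polyExt Φ e (((σ j : ℂ ≃+* ℂ) : ℂ →+* ℂ).comp (e i).1)).det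

theorem detPoly_degree {g : ℕ} (e : Fin g ≃ Φ) (σ : Fin g → ℂ ≃+* ℂ) :
    (detPoly Φ e σ).totalDegree ≤ g := by
  unfold detPoly
  rw [Matrix.det_apply]
  refine MvPolynomial.totalDegree_finsetSum_le fun τ _ => ?_
  refine le_trans (MvPolynomial.totalDegree_smul_le _ _) ?_
  refine le_trans (MvPolynomial.totalDegree_finsetProd _ _) ?_
  refine le_trans (sum_le_sum fun i _ => polyExt_degree e _) ?_
  simp

theorem eval_detPoly (hΦ : IsCMType Φ) {g : ℕ} (e : Fin g ≃ Φ) (σ : Fin g → ℂ ≃+* ℂ)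
    {D : (E →+* ℂ) → ℤ} (hD : ∀ φ, D (ComplexEmbedding.conjugate φ) = -D φ) :
    MvPolynomial.eval (fun i => D (e i).1) (detPoly Φ e σ) =
      (Matrix.of fun j i => D (((σ j : ℂ ≃+* ℂ) : ℂ →+* ℂ).comp (e i).1)).det := by
  unfold detPoly
  rw [RingHom.map_det]
  congr 1
  ext j i
  simp only [RingHom.mapMatrix_apply, Matrix.map_apply, Matrix.of_apply]
  exact eval_polyExt hΦ e hD _

/-- Functions with relations are zeros of the determinant. -/
theorem det_zero (hΦ : IsCMType Φ) {g : ℕ} (e : Fin g ≃ Φ) (σ : Fin g → ℂ ≃+* ℂ)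
    {D : (E →+* ℂ) → ℤ} (hD : ∀ φ, D (ComplexEmbedding.conjugate φ) = -D φ)
    (h : ¬ NoRelationsOf D) :
    (Matrix.of fun j i => D (((σ j : ℂ ≃+* ℂ) : ℂ →+* ℂ).comp (e i).1)).det = 0 := by
  unfold NoRelationsOf at h
  push Not at h
  obtain ⟨c, hc, hrel, hc0⟩ := h
  rw [← Matrix.exists_mulVec_eq_zero_iff]
  refine ⟨fun i => c (e i).1, ?_, ?_⟩
  · intro h0
    apply hc0
    have h1 : ∀ φ ∈ Φ, c φ = 0 := by
      intro φ hφ
      have h2 := congrFun h0 (e.symm ⟨φ, hφ⟩)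
      simpa using h2
    funext φ
    by_cases hφ : φ ∈ Φ
    · exact h1 φ hφ
    · have h2 := h1 _ (conj_mem hΦ hφ)
      rw [hc, neg_eq_zero] at h2
      exact h2
  · funext j
    have h1 := hrel (σ j)
    rw [sum_odd hΦ e] at h1
    · rw [Matrix.mulVec, dotProduct]
      have h2 : ∑ i, c (e i).1 * D (((σ j : ℂ ≃+* ℂ) : ℂ →+* ℂ).comp (e i).1) = 0 := by
        omega
      simp only [Matrix.of_apply, Pi.zero_apply]
      rw [← h2]
      exact sum_congr rfl fun i _ => mul_comm _ _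
    · intro φ
      rw [hc, comp_conj, hD]
      ring

/-- The determinant is not the zero polynomial. -/
theorem exists_detPoly_ne_zero (hΦ : IsCMType Φ) {g : ℕ} (e : Fin g ≃ Φ) :
    ∃ σ : Fin g → ℂ ≃+* ℂ, detPoly Φ e σ ≠ 0 := by
  classical
  rcases Nat.eq_zero_or_pos g with rfl | hg
  · refine ⟨fun _ => RingEquiv.refl ℂ, ?_⟩
    unfold detPoly
    rw [Matrix.det_isEmpty]
    exact one_ne_zero
  let i₀ : Fin g := ⟨0, hg⟩
  choose σ hσ using fun j : Fin g => Pool.Agent.TH170.MF.exists_comp_eq E (e j).1 (e i₀).1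
  refine ⟨σ, fun h0 => ?_⟩
  set D : (E →+* ℂ) → ℤ := oddExt Φ (fun φ => if φ = (e i₀).1 then 1 else 0) with hDdef
  have hD : ∀ φ, D (ComplexEmbedding.conjugate φ) = -D φ := oddExt_odd hΦ _
  have h1 := eval_detPoly hΦ e σ hD
  rw [h0, map_zero] at h1
  have h2 : (Matrix.of fun j i => D (((σ j : ℂ ≃+* ℂ) : ℂ →+* ℂ).comp (e i).1)) =
      (1 : Matrix (Fin g) (Fin g) ℤ) := by
    ext j i
    rw [Matrix.of_apply, Matrix.one_apply]
    have hinj : Function.Injective fun φ : E →+* ℂ => ((σ j : ℂ ≃+* ℂ) : ℂ →+* ℂ).comp φ := by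
      intro φ ψ hφψ
      ext x
      have h3 := congrArg (fun f : E →+* ℂ => f x) hφψ
      exact (σ j).injective h3
    have hval : ∀ φ : E →+* ℂ, D φ = if φ ∈ Φ then (if φ = (e i₀).1 then 1 else 0) else
        -(if ComplexEmbedding.conjugate φ = (e i₀).1 then 1 else 0) := fun φ => rfl
    by_cases hij : j = i
    · subst hij
      rw [if_pos rfl, hσ, hval, if_pos (e i₀).2, if_pos rfl]
    · rw [if_neg hij, hval]
      by_cases ha : ((σ j : ℂ ≃+* ℂ) : ℂ →+* ℂ).comp (e i).1 ∈ Φ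
      · rw [if_pos ha, if_neg]
        intro hb
        apply hij
        refine e.injective (Subtype.ext (hinj ?_))
        exact (hσ j).trans hb.symm
      · rw [if_neg ha, if_neg, neg_zero]
        intro hb
        have h4 : ComplexEmbedding.conjugate (e i).1 = (e j).1 := by
          refine hinj ?_
          exact ((comp_conj _ _).trans hb).trans (hσ j).symm
        exact (hΦ _).1 (e i).2 (h4 ▸ (e j).2)
  rw [h2, Matrix.det_one] at h1
  exact zero_ne_one h1

/-- The set of the values. -/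
def vals (m : ℕ) : Finset ℤ := (range (m + 1)).image fun j : ℕ => (m : ℤ) - 2 * (j : ℤ)

theorem card_vals (m : ℕ) : (vals m).card = m + 1 := by
  unfold vals
  rw [card_image_of_injective, card_range]
  intro a b hab
  have : (m : ℤ) - 2 * a = m - 2 * b := hab
  omega

theorem mem_vals {m : ℕ} {x : ℤ} : x ∈ vals m ↔ |x| ≤ m ∧ Even (m + x) := by
  unfold vals
  rw [mem_image]
  constructor
  · rintro ⟨j, hj, rfl⟩
    rw [mem_range] at hj
    refine ⟨abs_le.2 ⟨by omega, by omega⟩, ⟨m - j, by ring⟩⟩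
  · rintro ⟨h1, ⟨k, hk⟩⟩
    obtain ⟨h2, h3⟩ := abs_le.1 h1
    refine ⟨(m - k).toNat, ?_, ?_⟩
    · rw [mem_range]
      omega
    · have : ((m - k).toNat : ℤ) = m - k := Int.toNat_of_nonneg (by omega)
      rw [this]
      omega

/-- The box is finite and has `(m + 1) ^ g` elements. -/
theorem ncard_box {g : ℕ} (hg : finrank ℚ E = 2 * g) (m : ℕ) : (Box E m).ncard = (m + 1) ^ g := by
  classical
  obtain ⟨Φ, hΦ⟩ := exists_type E hg
  have e : Fin g ≃ Φ := (Finite.equivFinOfCardEq (card_type hΦ hg)).symm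
  have h1 : (Fintype.piFinset fun _ : Fin g => vals m).card = (m + 1) ^ g := by
    rw [Fintype.card_piFinset]
    simp [card_vals]
  rw [← h1, ← Set.ncard_coe_finset]
  refine Set.ncard_congr (fun D _ i => D (e i).1) ?_ ?_ ?_
  · intro D hD
    rw [mem_coe, Fintype.mem_piFinset]
    intro i
    exact mem_vals.2 (hD _).2
  · intro D D' hD hD' h
    rw [← oddExt_self hΦ fun φ => (hD φ).1, ← oddExt_self hΦ fun φ => (hD' φ).1]
    refine oddExt_congr hΦ fun φ hφ => ?_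
    have h2 := congrFun h (e.symm ⟨φ, hφ⟩)
    simpa using h2
  · intro x hx
    rw [mem_coe, Fintype.mem_piFinset] at hx
    refine ⟨oddExt Φ (fun φ => if h : φ ∈ Φ then x (e.symm ⟨φ, h⟩) else 0), ?_, ?_⟩
    · intro φ
      refine ⟨oddExt_odd hΦ _ φ, ?_⟩
      rw [← mem_vals]
      unfold oddExt
      dsimp only
      by_cases h : φ ∈ Φ
      · rw [if_pos h, dif_pos h]
        exact hx _
      · rw [if_neg h, dif_pos (conj_mem hΦ h)]
        have h3 := mem_vals.1 (hx (e.symm ⟨_, conj_mem hΦ h⟩))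
        refine mem_vals.2 ⟨by rw [abs_neg]; exact h3.1, ?_⟩
        obtain ⟨k, hk⟩ := h3.2
        exact ⟨m - k + 0, by omega⟩
    · funext i
      unfold oddExt
      dsimp only
      rw [if_pos (e i).2, dif_pos (e i).2]
      simp

theorem finite_box {g : ℕ} (hg : finrank ℚ E = 2 * g) (m : ℕ) : (Box E m).Finite := by
  refine Set.finite_of_ncard_ne_zero ?_
  rw [ncard_box hg]
  positivity

/-- **Almost all functions in the box have no relations.** -/
theorem ncard_degenerate {g : ℕ} (hg : finrank ℚ E = 2 * g) (m : ℕ) :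
    (({D | D ∈ Box E m ∧ ¬ NoRelationsOf D}.ncard : ℕ) : ℝ) ≤
      g / (m + 1) * (m + 1) ^ g := by
  classical
  obtain ⟨Φ, hΦ⟩ := exists_type E hg
  have e : Fin g ≃ Φ := (Finite.equivFinOfCardEq (card_type hΦ hg)).symm
  obtain ⟨σ, hσ⟩ := exists_detPoly_ne_zero hΦ e
  have h1 := MvPolynomial.schwartz_zippel_totalDegree hσ (vals m)
  rw [card_vals] at h1
  set Z := {f ∈ Fintype.piFinset fun _ : Fin g => vals m | MvPolynomial.eval f (detPoly Φ e σ) = 0}
    with hZ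
  have h2 : {D | D ∈ Box E m ∧ ¬ NoRelationsOf D}.ncard ≤ Z.card := by
    rw [← Set.ncard_coe_finset]
    refine Set.ncard_le_ncard_of_injOn (fun D i => D (e i).1) ?_ ?_ (Finset.finite_toSet _)
    · rintro D ⟨hD, hno⟩
      rw [mem_coe, hZ, mem_filter, Fintype.mem_piFinset]
      refine ⟨fun i => mem_vals.2 (hD _).2, ?_⟩
      rw [eval_detPoly hΦ e σ fun φ => (hD φ).1]
      exact det_zero hΦ e σ (fun φ => (hD φ).1) hno
    · rintro D ⟨hD, -⟩ D' ⟨hD', -⟩ h
      rw [← oddExt_self hΦ fun φ => (hD φ).1, ← oddExt_self hΦ fun φ => (hD' φ).1]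
      refine oddExt_congr hΦ fun φ hφ => ?_
      have h2 := congrFun h (e.symm ⟨φ, hφ⟩)
      simpa using h2
  have h3 : (Z.card : ℝ) ≤ (g : ℝ) / (m + 1) * (m + 1) ^ g := by
    have h4 : (Z.card : ℚ≥0) / ((m + 1 : ℕ) : ℚ≥0) ^ g ≤ (g : ℚ≥0) / ((m + 1 : ℕ) : ℚ≥0) := by
      refine le_trans h1 ?_
      gcongr
      exact_mod_cast detPoly_degree e σ
    have h5 : ((m + 1 : ℕ) : ℚ≥0) ^ g ≠ 0 := pow_ne_zero _ (by exact_mod_cast Nat.succ_ne_zero m)
    rw [div_le_iff₀ (pos_iff_ne_zero.2 h5)] at h4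
    have h6 : (((Z.card : ℚ≥0)) : ℝ) ≤
      (((g : ℚ≥0) / ((m + 1 : ℕ) : ℚ≥0) * ((m + 1 : ℕ) : ℚ≥0) ^ g : ℚ≥0) : ℝ) := by
      exact_mod_cast h4
    push_cast at h6
    exact h6
  refine le_trans ?_ h3
  exact_mod_cast h2

end one

end Pool.Agent.Q29.BX
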