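import Mathlib
import Pool.Agent.Q29.BX.Box
import Pool.Agent.Q29.TE.RowsDefs
import Pool.Agent.Q29.TE.Law3

/-!
# Families of functions in boxes
-/

set_option autoImplicit false
set_option linter.unusedSectionVars false
set_option linter.unusedVariables false

namespace Pool.Agent.Q29.BX

open NumberField Module Finset Pool.Agent.H204R3.CM Pool.Agent.H977R3.CM Pool.Agent.TH170.CM
  Pool.Agent.Q29.OS Pool.Agent.Q29.TE

theorem ncard_some_bad {ι : Type} [Fintype ι] {X : ι → Type} (B bad : ∀ i, Set (X i))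
    (hB : ∀ i, (B i).Finite) (hbad : ∀ i, bad i ⊆ B i) (c : ι → ℝ)
    (hc : ∀ i, (((bad i).ncard : ℕ) : ℝ) ≤ c i * ((B i).ncard : ℕ)) :
    (({D : ∀ i, X i | (∀ i, D i ∈ B i) ∧ ∃ i, D i ∈ bad i}.ncard : ℕ) : ℝ) ≤
      (∑ i, c i) * ∏ i, (((B i).ncard : ℕ) : ℝ) := by
  classical
  have h1 : {D : ∀ i, X i | (∀ i, D i ∈ B i) ∧ ∃ i, D i ∈ bad i} ⊆
      ⋃ i, {D : ∀ j, X j | ∀ j, D j ∈ Function.update B i (bad i) j} := by
    rintro D ⟨hD, i, hi⟩
    rw [Set.mem_iUnion]
    refine ⟨i, fun j => ?_⟩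
    by_cases hj : j = i
    · subst hj
      rw [Function.update_self]
      exact hi
    · rw [Function.update_of_ne hj]
      exact hD j
  have h2 : ∀ i, {D : ∀ j, X j | ∀ j, D j ∈ Function.update B i (bad i) j}.Finite := by
    intro i
    refine Set.Finite.pi' fun j => ?_
    by_cases hj : j = i
    · subst hj
      rw [Function.update_self]
      exact (hB j).subset (hbad j)
    · rw [Function.update_of_ne hj]
      exact hB j
  have h3 : {D : ∀ i, X i | (∀ i, D i ∈ B i) ∧ ∃ i, D i ∈ bad i}.ncard ≤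
      ∑ i, {D : ∀ j, X j | ∀ j, D j ∈ Function.update B i (bad i) j}.ncard :=
    le_trans (Set.ncard_le_ncard h1 (Set.finite_iUnion h2)) (Set.ncard_iUnion_le_of_fintype _)
  have h4 : ∀ i, (({D : ∀ j, X j | ∀ j, D j ∈ Function.update B i (bad i) j}.ncard : ℕ) : ℝ) ≤
      c i * ∏ j, (((B j).ncard : ℕ) : ℝ) := by
    intro i
    rw [ncard_families (fun j => Function.update B i (bad i) j), Nat.cast_prod,
      ← Finset.mul_prod_erase univ _ (mem_univ i), ← Finset.mul_prod_erase univ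
        (fun j => (((B j).ncard : ℕ) : ℝ)) (mem_univ i), Function.update_self, ← mul_assoc]
    have h5 : ∏ j ∈ univ.erase i, (((Function.update B i (bad i) j).ncard : ℕ) : ℝ) =
        ∏ j ∈ univ.erase i, (((B j).ncard : ℕ) : ℝ) := by
      refine prod_congr rfl fun j hj => ?_
      rw [Function.update_of_ne (Finset.ne_of_mem_erase hj)]
    rw [h5]
    exact mul_le_mul_of_nonneg_right (hc i) (prod_nonneg fun j _ => Nat.cast_nonneg _)
  calc _ ≤ ((∑ i, {D : ∀ j, X j | ∀ j, D j ∈ Function.update B i (bad i) j}.ncard : ℕ) : ℝ) := by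
        exact_mod_cast h3
    _ ≤ ∑ i, c i * ∏ j, (((B j).ncard : ℕ) : ℝ) := by
        rw [Nat.cast_sum]
        exact sum_le_sum fun i _ => h4 i
    _ = _ := by rw [sum_mul]

section one

variable {E : Type} [Field E] [NumberField E] [IsCMField E] {Φ : Set (E →+* ℂ)}

theorem noRelations_of_abs (hΦ : IsCMType Φ) {D : (E →+* ℂ) → ℤ}
    (hD : ∀ φ, D (ComplexEmbedding.conjugate φ) = -D φ) (hpos : ∀ φ ∈ Φ, 0 ≤ D φ)
    (h : NoRelationsOf D) : NoRelations (fun φ => |D φ|) Φ := by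
  have h1 : ∀ φ, sgn Φ φ * |D φ| = D φ := by
    intro φ
    unfold sgn
    split_ifs with hφ
    · rw [one_mul, abs_of_nonneg (hpos φ hφ)]
    · have h2 := hpos _ (conj_mem hΦ hφ)
      rw [hD] at h2
      rw [abs_of_nonpos (by linarith)]
      ring
  intro c hc hrel
  refine h c hc fun σ => ?_
  rw [← hrel σ]
  exact sum_congr rfl fun φ _ => by rw [h1]

end one

/-- The bound for families of functions in boxes, for all properties of functions without
relations. -/
theorem fam_box {ι : Type} [Fintype ι] (E : ι → Type) [∀ i, Field (E i)] [∀ i, NumberField (E i)]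
    [∀ i, IsCMField (E i)] (m g : ι → ℕ) (hg : ∀ i, finrank ℚ (E i) = 2 * g i)
    (P : (∀ i, (E i →+* ℂ) → ℤ) → Prop)
    (hP : ∀ D : ∀ i, (E i →+* ℂ) → ℤ, (∀ i, D i ∈ Box (E i) (m i)) →
      (∀ i, NoRelationsOf (D i)) → P D) :
    (({D : ∀ i, (E i →+* ℂ) → ℤ | (∀ i, D i ∈ Box (E i) (m i)) ∧ ¬ P D}.ncard : ℕ) : ℝ) ≤
      (∑ i, (g i : ℝ) / (m i + 1)) * ∏ i, ((m i : ℝ) + 1) ^ g i := by
  have h1 := ncard_some_bad (fun i => Box (E i) (m i))
    (fun i => {D | D ∈ Box (E i) (m i) ∧ ¬ NoRelationsOf D}) (fun i => finite_box (hg i) (m i))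
    (fun i D hD => hD.1) (fun i => (g i : ℝ) / (m i + 1)) (fun i => by
      rw [ncard_box (hg i)]
      have := ncard_degenerate (hg i) (m i)
      push_cast
      exact this)
  have h2 : ∏ i, (((Box (E i) (m i)).ncard : ℕ) : ℝ) = ∏ i, ((m i : ℝ) + 1) ^ g i := by
    refine prod_congr rfl fun i _ => ?_
    rw [ncard_box (hg i)]
    push_cast
    rfl
  rw [h2] at h1
  refine le_trans ?_ h1
  rw [Nat.cast_le]
  refine Set.ncard_le_ncard ?_ ((Set.Finite.pi' fun i => finite_box (hg i) (m i)).subset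
    fun D hD => hD.1)
  rintro D ⟨hD, hno⟩
  refine ⟨hD, ?_⟩
  by_contra hall
  push Not at hall
  exact hno (hP D hD fun i => by
    by_contra h3
    exact hall i ⟨hD i, h3⟩)

end Pool.Agent.Q29.BX
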