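import Pool.Agent.Q29.BX.Filt

/-!
# A congruence box space with all the properties `D_α`, `α < 1`
-/

open LaurentPolynomial

namespace Q29.BX

/-- evaluation at `X = 1` -/
noncomputable def eps : A →+* ℤ := LaurentPolynomial.eval₂ (RingHom.id ℤ) (1 : ℤˣ)

theorem eps_T (n : ℤ) : eps (T n) = 1 := by
  rw [eps, LaurentPolynomial.eval₂_T]
  simp

theorem eps_C (c : ℤ) : eps (C c) = c := by
  rw [eps, LaurentPolynomial.eval₂_C]
  simp

/-- the number of elements of the finite ring `(ℤ/t)[X]/(X^t - 1)`, `t = 2^(k+1)` -/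
noncomputable def jj (k : ℕ) : ℕ :=
  Nat.card (AddMonoidAlgebra (ZMod (2 ^ (k + 1))) (ZMod (2 ^ (k + 1))))

theorem jj_pos (k : ℕ) : 0 < jj k := Nat.card_pos

/-- the moduli -/
noncomputable def mm (k : ℕ) : ℕ := ∏ i ∈ Finset.range (k + 1), 2 * jj i ^ i

theorem mm_pos (k : ℕ) : 0 < mm k := by
  apply Finset.prod_pos
  intro i _
  have := jj_pos i
  positivity

instance (k : ℕ) : NeZero (mm k) := ⟨(mm_pos k).ne'⟩

theorem mm_dvd (k : ℕ) : mm k ∣ mm (k + 1) := by
  unfold mm
  rw [Finset.prod_range_succ _ (k + 1)]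
  exact dvd_mul_right _ _

theorem mm_even (k : ℕ) : 2 ∣ mm k := by
  unfold mm
  rw [Finset.prod_range_succ']
  exact Dvd.dvd.mul_left (dvd_mul_right _ _) _

theorem mm_ge (k : ℕ) : jj k ^ k ≤ mm k := by
  have h1 : 2 * jj k ^ k ∣ mm k :=
    Finset.dvd_prod_of_mem (fun i => 2 * jj i ^ i) (Finset.mem_range.mpr (Nat.lt_succ_self k))
  have := Nat.le_of_dvd (mm_pos k) h1
  omega

/-- the ring homomorphisms -/
noncomputable def th (k : ℕ) :
    A →+* ZMod (mm k) × AddMonoidAlgebra (ZMod (2 ^ (k + 1))) (ZMod (2 ^ (k + 1))) :=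
  ((Int.castRingHom (ZMod (mm k))).comp eps).prod (rho (2 ^ (k + 1)) (2 ^ (k + 1)))

/-- the ideals of the first question -/
noncomputable def I (k : ℕ) : Ideal A := RingHom.ker (th k)

theorem mem_I (k : ℕ) (P : A) : P ∈ I k ↔ (mm k : ℤ) ∣ eps P ∧
    rho (2 ^ (k + 1)) (2 ^ (k + 1)) P = 0 := by
  rw [I, RingHom.mem_ker, th, RingHom.prod_apply, Prod.mk_eq_zero, RingHom.comp_apply,
    eq_intCast, ZMod.intCast_zmod_eq_zero_iff_dvd]

theorem I_congr : IsCongruenceFiltration I := by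
  apply isCongr
  · intro k P hP
    rw [mem_I] at hP ⊢
    refine ⟨(Int.natCast_dvd_natCast.mpr (mm_dvd k)).trans hP.1, ?_⟩
    have h1 : P ∈ RingHom.ker (rho (2 ^ (k + 1 + 1)) (2 ^ (k + 1 + 1))) := hP.2
    have h2 : 2 ^ (k + 1) ∣ 2 ^ (k + 1 + 1) := pow_dvd_pow 2 (by omega)
    exact ker_mono h2 h2 h1
  · intro k
    exact finite_of_ker (th k) _ rfl
  · intro P hP
    apply eq_zero_of_forall (t := fun k => 2 ^ (k + 1))
    · intro N
      exact ⟨N, (Nat.lt_two_pow_self).le.trans (Nat.pow_le_pow_right (by norm_num) (by omega))⟩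
    · intro k
      exact ((mem_I k P).mp (hP k)).2

theorem card_I (k : ℕ) : Finite (G ⧸ congr (I k)) ∧
    Nat.card (G ⧸ congr (I k)) ≤ mm k * (jj k * jj k) := by
  have h := quot_card_le (congr (I k)) (X := ZMod (mm k) ×
    (AddMonoidAlgebra (ZMod (2 ^ (k + 1))) (ZMod (2 ^ (k + 1))) ×
    AddMonoidAlgebra (ZMod (2 ^ (k + 1))) (ZMod (2 ^ (k + 1)))))
    (fun g => (((eps (en g).2 : ℤ) : ZMod (mm k)), rho (2 ^ (k + 1)) (2 ^ (k + 1)) (en g).2,
      rho (2 ^ (k + 1)) (2 ^ (k + 1)) (en g).1)) (by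
    intro g h hgh
    obtain ⟨n, P, rfl⟩ := exists_el g
    obtain ⟨m, Q, rfl⟩ := exists_el h
    simp only [en_el, Prod.mk.injEq] at hgh
    obtain ⟨h1, h2, h3⟩ := hgh
    rw [inv_mul_mem, mem_I, mem_I]
    refine ⟨⟨?_, ?_⟩, ?_, ?_⟩
    · rw [map_sub, eps_T, eps_T, sub_self]
      exact dvd_zero _
    · rw [map_sub, h3, sub_self]
    · rw [map_sub, ← ZMod.intCast_eq_intCast_iff_dvd_sub]
      exact h1
    · rw [map_sub, h2, sub_self])
  refine ⟨h.1, h.2.trans (le_of_eq ?_)⟩
  rw [Nat.card_prod, Nat.card_prod, Nat.card_zmod]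
  rfl

/-- the homomorphism `(X^n, P) ↦ P(1)` -/
noncomputable def del (g : G) : ℤ := eps (en g).2

theorem del_el (n : ℤ) (P : A) : del (el n P) = eps P := by rw [del, en_el]

theorem del_mul (g h : G) : del (g * h) = del g + del h := by
  obtain ⟨n, P, rfl⟩ := exists_el g
  obtain ⟨m, Q, rfl⟩ := exists_el h
  rw [el_mul, del_el, del_el, del_el, map_add, map_mul, eps_T, one_mul]

theorem del_one : del 1 = 0 := by
  rw [el_one, del_el, map_zero]

theorem del_inv (g : G) : del g⁻¹ = -del g := by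
  have h := del_mul g g⁻¹
  rw [mul_inv_cancel, del_one] at h
  omega

theorem del_word {S : Set G} {M : ℕ} (hM : ∀ s ∈ S, (del s).natAbs ≤ M) (l : List G)
    (hl : ∀ x ∈ l, x ∈ S ∨ x⁻¹ ∈ S) : (del l.prod).natAbs ≤ M * l.length := by
  induction l with
  | nil => simp [del_one]
  | cons x l ih =>
    have h1 := ih fun y hy => hl y (by simp [hy])
    have h2 : (del x).natAbs ≤ M := by
      rcases hl x (by simp) with h | h
      · exact hM x h
      · have := hM _ h
        rwa [del_inv, Int.natAbs_neg] at this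
    rw [List.prod_cons, del_mul, List.length_cons, Nat.mul_succ]
    have := Int.natAbs_add_le (del x) (del l.prod)
    omega

theorem diam_I {S : Set G} (hS : Subgroup.closure S = ⊤) {M : ℕ}
    (hM : ∀ s ∈ S, (del s).natAbs ≤ M) (k : ℕ) :
    mm k ≤ 2 * (M * diam S (congr (I k))) := by
  have hfin := (card_I k).1
  obtain ⟨h, hh⟩ := mm_even k
  obtain ⟨l, h1, h2, h3⟩ := exists_rep hS (congr (I k)) (el 0 (C (h : ℤ)))
  have h4 := del_word hM l h2
  obtain ⟨n, P, hP⟩ := exists_el l.prod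
  rw [hP, inv_mul_mem, mem_I, mem_I] at h3
  rw [hP, del_el] at h4
  have h5 := h3.2.1
  rw [map_sub, eps_C] at h5
  have h6 : h ≤ (eps P).natAbs := by
    by_contra hcon
    push Not at hcon
    have hlt : (h : ℤ) - eps P < mm k := by rw [hh]; push_cast; omega
    have hpos : 0 < (h : ℤ) - eps P := by omega
    have := Int.le_of_dvd hpos h5
    omega
  have h7 : M * l.length ≤ M * diam S (congr (I k)) := Nat.mul_le_mul_left _ h1
  omega

theorem prop_D {S : Set G} (hSf : S.Finite) (hS : Subgroup.closure S = ⊤) {α : ℝ} (hα : 0 < α)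
    (hα1 : α < 1) : PropertyD S (fun k => congr (I k)) α := by
  classical
  obtain ⟨M, hM1, hM⟩ : ∃ M : ℕ, 1 ≤ M ∧ ∀ s ∈ S, (del s).natAbs ≤ M := by
    refine ⟨∑ s ∈ hSf.toFinset, (del s).natAbs + 1, by omega, fun s hs => ?_⟩
    have := Finset.single_le_sum (f := fun s => (del s).natAbs) (fun _ _ => Nat.zero_le _)
      (hSf.mem_toFinset.mpr hs)
    omega
  obtain ⟨k₀, hk₀⟩ := exists_nat_ge (2 * α / (1 - α))
  have h1α : 0 < 1 - α := by linarith
  rw [div_le_iff₀ h1α] at hk₀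
  set Cst : ℝ := ∑ i ∈ Finset.range k₀, ((jj i : ℝ) * jj i) + 1 with hCst
  have hCst1 : 1 ≤ Cst := by
    have : 0 ≤ ∑ i ∈ Finset.range k₀, ((jj i : ℝ) * jj i) :=
      Finset.sum_nonneg fun _ _ => by positivity
    linarith
  have key : ∀ k, ((mm k : ℝ) * ((jj k : ℝ) * jj k)) ^ α ≤ Cst * mm k := by
    intro k
    have hm1 : (1 : ℝ) ≤ mm k := by exact_mod_cast mm_pos k
    have hj1 : (1 : ℝ) ≤ jj k := by exact_mod_cast jj_pos k
    have hjj1 : (1 : ℝ) ≤ (jj k : ℝ) * jj k := by nlinarith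
    rw [Real.mul_rpow (by linarith) (by linarith)]
    by_cases hk : k < k₀
    · have e1 : (mm k : ℝ) ^ α ≤ mm k := by
        calc (mm k : ℝ) ^ α ≤ (mm k : ℝ) ^ (1 : ℝ) :=
              Real.rpow_le_rpow_of_exponent_le hm1 hα1.le
          _ = mm k := Real.rpow_one _
      have e2 : ((jj k : ℝ) * jj k) ^ α ≤ Cst := by
        calc ((jj k : ℝ) * jj k) ^ α ≤ ((jj k : ℝ) * jj k) ^ (1 : ℝ) :=
              Real.rpow_le_rpow_of_exponent_le hjj1 hα1.le
          _ = (jj k : ℝ) * jj k := Real.rpow_one _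
          _ ≤ ∑ i ∈ Finset.range k₀, ((jj i : ℝ) * jj i) :=
              Finset.single_le_sum (f := fun i => (jj i : ℝ) * jj i)
                (fun _ _ => by positivity) (Finset.mem_range.mpr hk)
          _ ≤ Cst := by linarith
      calc (mm k : ℝ) ^ α * ((jj k : ℝ) * jj k) ^ α ≤ mm k * Cst := by
            apply mul_le_mul e1 e2 (by positivity) (by linarith)
        _ = Cst * mm k := mul_comm _ _
    · push Not at hk
      have hkR : (k₀ : ℝ) ≤ k := by exact_mod_cast hk
      have e2 : ((jj k : ℝ) * jj k) ^ α ≤ (mm k : ℝ) ^ (1 - α) := by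
        have f1 : ((jj k : ℝ) * jj k) ^ α = (jj k : ℝ) ^ (2 * α) := by
          rw [← sq, ← Real.rpow_natCast, ← Real.rpow_mul (by linarith)]
          norm_num
        have f2 : (jj k : ℝ) ^ (2 * α) ≤ (jj k : ℝ) ^ ((k : ℝ) * (1 - α)) := by
          apply Real.rpow_le_rpow_of_exponent_le hj1
          nlinarith
        have f3 : (jj k : ℝ) ^ ((k : ℝ) * (1 - α)) = ((jj k : ℝ) ^ k) ^ (1 - α) := by
          rw [Real.rpow_mul (by linarith), Real.rpow_natCast]
        have f4 : ((jj k : ℝ) ^ k) ^ (1 - α) ≤ (mm k : ℝ) ^ (1 - α) := by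
          apply Real.rpow_le_rpow (by positivity) _ h1α.le
          exact_mod_cast mm_ge k
        rw [f1]
        exact f2.trans (f3 ▸ f4)
      calc (mm k : ℝ) ^ α * ((jj k : ℝ) * jj k) ^ α ≤ (mm k : ℝ) ^ α * (mm k : ℝ) ^ (1 - α) := by
            gcongr
        _ = mm k := by
            rw [← Real.rpow_add (by linarith)]
            simp
        _ ≤ Cst * mm k := by nlinarith
  refine ⟨1 / (2 * M * Cst), by positivity, fun k => ?_⟩
  have hMR : (1 : ℝ) ≤ M := by exact_mod_cast hM1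
  have h1 : (Nat.card (G ⧸ congr (I k)) : ℝ) ≤ (mm k : ℝ) * ((jj k : ℝ) * jj k) := by
    exact_mod_cast (card_I k).2
  have h2 : (Nat.card (G ⧸ congr (I k)) : ℝ) ^ α ≤ Cst * mm k :=
    (Real.rpow_le_rpow (by positivity) h1 hα.le).trans (key k)
  have h3 : (mm k : ℝ) ≤ 2 * (M * (diam S (congr (I k)) : ℝ)) := by
    exact_mod_cast diam_I hS hM k
  rw [div_mul_eq_mul_div, one_mul, div_le_iff₀ (by positivity)]
  calc (Nat.card (G ⧸ congr (I k)) : ℝ) ^ α ≤ Cst * mm k := h2
    _ ≤ Cst * (2 * (M * (diam S (congr (I k)) : ℝ))) := by gcongr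
    _ = _ := by ring

/-- `G` is generated by two elements -/
theorem closure_std : Subgroup.closure ({el 1 0, el 0 1} : Set G) = ⊤ := by
  set H := Subgroup.closure ({el 1 0, el 0 1} : Set G) with hH
  have hx : el 1 0 ∈ H := Subgroup.subset_closure (by simp)
  have hp : el 0 1 ∈ H := Subgroup.subset_closure (by simp)
  have hn : ∀ n : ℕ, el n 0 ∈ H := by
    intro n
    induction n with
    | zero => rw [Nat.cast_zero, ← el_one]; exact H.one_mem
    | succ n ih =>
      have := H.mul_mem ih hx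
      rw [el_mul] at this
      simpa using this
  have hz : ∀ n : ℤ, el n 0 ∈ H := by
    intro n
    rcases Int.natAbs_eq n with h | h
    · rw [h]; exact hn _
    · have := H.inv_mem (hn n.natAbs)
      rw [el_inv, mul_zero, neg_zero, ← h] at this
      exact this
  have hT : ∀ n : ℤ, el 0 (T n) ∈ H := by
    intro n
    have := H.mul_mem (H.mul_mem (hz n) hp) (hz (-n))
    rw [el_mul, el_mul] at this
    simpa using this
  have hadd : ∀ P Q : A, el 0 P ∈ H → el 0 Q ∈ H → el 0 (P + Q) ∈ H := by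
    intro P Q h1 h2
    have := H.mul_mem h1 h2
    rw [el_mul, T_zero, one_mul, add_zero] at this
    exact this
  have hneg : ∀ P : A, el 0 P ∈ H → el 0 (-P) ∈ H := by
    intro P h1
    have := H.inv_mem h1
    rw [el_inv, neg_zero, T_zero, one_mul] at this
    exact this
  have hnat : ∀ (a : ℕ) (n : ℤ), el 0 (C (a : ℤ) * T n) ∈ H := by
    intro a n
    induction a with
    | zero =>
      rw [Nat.cast_zero, map_zero, zero_mul, ← el_one]
      exact H.one_mem
    | succ a ih =>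
      rw [Nat.cast_succ, map_add, map_one, add_mul, one_mul]
      exact hadd _ _ ih (hT n)
  have hall : ∀ P : A, el 0 P ∈ H := by
    intro P
    induction P using LaurentPolynomial.induction_on' with
    | add P Q h1 h2 => exact hadd P Q h1 h2
    | C_mul_T n a =>
      rcases Int.natAbs_eq a with h | h
      · rw [h]; exact hnat _ _
      · rw [h, map_neg, neg_mul]; exact hneg _ (hnat _ _)
  rw [eq_top_iff]
  intro g _
  obtain ⟨n, P, rfl⟩ := exists_el g
  have := H.mul_mem (hall P) (hz n)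
  rw [el_mul, zero_add, mul_zero, add_zero] at this
  exact this

end Q29.BX
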