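import Mathlib

/-!
# Congruence box spaces of `ℤ ≀ ℤ`: definitions
-/

open LaurentPolynomial

namespace Q29.BX

/-- The word length of `g` with respect to the set `S`: the least length of a word in the elements
of `S` and their inverses whose product is `g`. -/
noncomputable def wordLen {H : Type*} [Group H] (S : Set H) (g : H) : ℕ :=
  sInf {n : ℕ | ∃ l : List H, l.length = n ∧ (∀ x ∈ l, x ∈ S ∨ x⁻¹ ∈ S) ∧ l.prod = g}

/-- The diameter of the Cayley graph of the quotient `H ⧸ N` with respect to the image of `S`. -/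
noncomputable def diam {H : Type*} [Group H] (S : Set H) (N : Subgroup H) [N.Normal] : ℕ :=
  sSup (Set.range fun q : H ⧸ N => wordLen (QuotientGroup.mk' N '' S) q)

/-- A filtration of `H`: a decreasing sequence of finite-index normal subgroups with trivial
intersection. -/
structure IsFiltration {H : Type*} [Group H] (N : ℕ → Subgroup H) : Prop where
  /-- decreasing -/
  anti : ∀ k, N (k + 1) ≤ N k
  /-- normal -/
  normal : ∀ k, (N k).Normal
  /-- of finite index -/
  finiteIndex : ∀ k, (N k).FiniteIndex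
  /-- trivial intersection -/
  inf : ⨅ k, N k = ⊥

/-- Property `D_α` of the box space of the sequence `N` (with respect to the generating set
`S`): there is `K > 0` with `diam (H/N_k) ≥ K |H/N_k|^α` for every `k`. -/
def PropertyD {H : Type*} [Group H] (S : Set H) (N : ℕ → Subgroup H) [∀ k, (N k).Normal]
    (α : ℝ) : Prop :=
  ∃ K : ℝ, 0 < K ∧ ∀ k, K * (Nat.card (H ⧸ N k) : ℝ) ^ α ≤ (diam S (N k) : ℝ)

/-- The ring `A = ℤ[X, X⁻¹]`. -/
abbrev A : Type := LaurentPolynomial ℤ

theorem mul_form (n m : ℤ) (P Q : A) :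
    (!![T n, P; 0, 1] * !![T m, Q; 0, 1] : Matrix (Fin 2) (Fin 2) A) =
      !![T (n + m), P + T n * Q; 0, 1] := by
  rw [Matrix.mul_fin_two, T_add, mul_zero, add_zero, zero_mul, zero_add, mul_one, mul_one,
    zero_mul, zero_add, one_mul, add_comm]

theorem inv_form {M : Matrix.GeneralLinearGroup (Fin 2) A} {n : ℤ} {P : A}
    (h : (M : Matrix (Fin 2) (Fin 2) A) = !![T n, P; 0, 1]) :
    ((M⁻¹ : Matrix.GeneralLinearGroup (Fin 2) A) : Matrix (Fin 2) (Fin 2) A) =
      !![T (-n), -(T (-n) * P); 0, 1] := by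
  have h1 : (!![T (-n), -(T (-n) * P); 0, 1] : Matrix (Fin 2) (Fin 2) A) *
      (M : Matrix (Fin 2) (Fin 2) A) = 1 := by
    rw [h, mul_form, Matrix.one_fin_two]
    simp
  have h2 : ((M : Matrix (Fin 2) (Fin 2) A)) *
      ((M⁻¹ : Matrix.GeneralLinearGroup (Fin 2) A) : Matrix (Fin 2) (Fin 2) A) = 1 :=
    Units.mul_inv M
  calc ((M⁻¹ : Matrix.GeneralLinearGroup (Fin 2) A) : Matrix (Fin 2) (Fin 2) A)
      = (!![T (-n), -(T (-n) * P); 0, 1] * (M : Matrix (Fin 2) (Fin 2) A)) *
        ((M⁻¹ : Matrix.GeneralLinearGroup (Fin 2) A) : Matrix (Fin 2) (Fin 2) A) := by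
        rw [h1, one_mul]
    _ = !![T (-n), -(T (-n) * P); 0, 1] := by rw [mul_assoc, h2, mul_one]

/-- The group `G = ℤ ≀ ℤ`, identified with the group of the matrices `(X^n, P; 0, 1)` in
`GL₂(A)`. -/
noncomputable def G : Subgroup (Matrix.GeneralLinearGroup (Fin 2) A) where
  carrier := {M | ∃ (n : ℤ) (P : A), (M : Matrix (Fin 2) (Fin 2) A) = !![T n, P; 0, 1]}
  mul_mem' := by
    rintro M M' ⟨n, P, h⟩ ⟨m, Q, h'⟩
    exact ⟨n + m, P + T n * Q, by rw [Units.val_mul, h, h', mul_form]⟩
  one_mem' := ⟨0, 0, by rw [Units.val_one, Matrix.one_fin_two, T_zero]⟩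
  inv_mem' := by
    rintro M ⟨n, P, h⟩
    exact ⟨-n, -(T (-n) * P), inv_form h⟩

/-- The congruence subgroup `G(I)`: the intersection of `G` with the kernel of
`GL₂(A) → GL₂(A/I)`. -/
noncomputable def congr (I : Ideal A) : Subgroup G :=
  ((Matrix.GeneralLinearGroup.map (n := Fin 2) (Ideal.Quotient.mk I)).ker).subgroupOf G

instance (I : Ideal A) : (congr I).Normal := by
  unfold congr
  infer_instance

/-- A sequence of ideals which defines a congruence box space of `G`: a decreasing sequence of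
finite-index ideals such that the congruence subgroups form a filtration of `G`. -/
structure IsCongruenceFiltration (I : ℕ → Ideal A) : Prop where
  /-- decreasing -/
  anti : ∀ k, I (k + 1) ≤ I k
  /-- finite-index ideals -/
  finite : ∀ k, Finite (A ⧸ I k)
  /-- the congruence subgroups form a filtration -/
  filtration : IsFiltration fun k => congr (I k)

end Q29.BX
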