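import Pool.Agent.Q29.BX.Rho

/-!
# Congruence filtrations, and the failure of the properties `D_α`
-/

open LaurentPolynomial

namespace Q29.BX

theorem quot_card_le {H X : Type*} [Group H] [Finite X] (N : Subgroup H) (f : H → X)
    (hf : ∀ g h, f g = f h → g⁻¹ * h ∈ N) :
    Finite (H ⧸ N) ∧ Nat.card (H ⧸ N) ≤ Nat.card X := by
  have hinj : Function.Injective fun q : H ⧸ N => f q.out := by
    intro q q' h
    have h1 := hf _ _ h
    rw [← QuotientGroup.eq, QuotientGroup.out_eq', QuotientGroup.out_eq'] at h1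
    exact h1
  exact ⟨Finite.of_injective _ hinj, Nat.card_le_card_of_injective _ hinj⟩

/-- the entries of an element of `G` -/
noncomputable def en (g : G) : A × A :=
  (((g : Matrix.GeneralLinearGroup (Fin 2) A) : Matrix (Fin 2) (Fin 2) A) 0 0,
    ((g : Matrix.GeneralLinearGroup (Fin 2) A) : Matrix (Fin 2) (Fin 2) A) 0 1)

theorem en_el (n : ℤ) (P : A) : en (el n P) = (T n, P) := by
  simp [en, el_val]

theorem finite_quot (I : Ideal A) [Finite (A ⧸ I)] : Finite (G ⧸ congr I) := by
  refine (quot_card_le (congr I) (fun g => (Ideal.Quotient.mk I (en g).1,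
    Ideal.Quotient.mk I (en g).2)) ?_).1
  intro g h hgh
  obtain ⟨n, P, rfl⟩ := exists_el g
  obtain ⟨m, Q, rfl⟩ := exists_el h
  simp only [en_el, Prod.mk.injEq] at hgh
  rw [inv_mul_mem]
  exact ⟨Ideal.Quotient.mk_eq_mk_iff_sub_mem _ _ |>.mp hgh.1.symm,
    Ideal.Quotient.mk_eq_mk_iff_sub_mem _ _ |>.mp hgh.2.symm⟩

theorem isCongr {I : ℕ → Ideal A} (hanti : ∀ k, I (k + 1) ≤ I k) (hfin : ∀ k, Finite (A ⧸ I k))
    (hinf : ∀ P : A, (∀ k, P ∈ I k) → P = 0) : IsCongruenceFiltration I where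
  anti := hanti
  finite := hfin
  filtration := by
    refine ⟨?_, fun k => inferInstance, ?_, ?_⟩
    · intro k g hg
      obtain ⟨n, P, rfl⟩ := exists_el g
      rw [mem_congr] at hg ⊢
      exact ⟨hanti k hg.1, hanti k hg.2⟩
    · intro k
      have := hfin k
      have := finite_quot (I k)
      exact Subgroup.finiteIndex_of_finite_quotient
    · rw [eq_bot_iff]
      intro g hg
      rw [Subgroup.mem_iInf] at hg
      obtain ⟨n, P, rfl⟩ := exists_el g
      have h1 : P = 0 := hinf P fun k => ((mem_congr _ _ _).mp (hg k)).2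
      have h2 : (T n - 1 : A) = 0 := hinf _ fun k => ((mem_congr _ _ _).mp (hg k)).1
      rw [sub_eq_zero, ← T_zero] at h2
      rw [Subgroup.mem_bot, el_one, h1, T_inj h2]

theorem finite_of_ker {R : Type*} [CommRing R] [Finite R] (f : A →+* R) (I : Ideal A)
    (hI : RingHom.ker f = I) : Finite (A ⧸ I) := by
  subst hI
  exact Finite.of_injective _ (RingHom.kerLift_injective f)

theorem rho_single (a b : ℕ) (n r : ℤ) :
    rho a b (AddMonoidAlgebra.single n r) = AddMonoidAlgebra.single (n : ZMod b) (r : ZMod a) := by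
  simp only [rho, RingHom.comp_apply, AddMonoidAlgebra.mapDomainRingHom_apply,
    AddMonoidAlgebra.mapDomain_single, AddMonoidAlgebra.mapRingHom_single]
  rfl

theorem rho_T (a b : ℕ) (n : ℤ) :
    rho a b (T n) = AddMonoidAlgebra.single (n : ZMod b) (1 : ZMod a) := by
  have := rho_single a b n 1
  rwa [Int.cast_one] at this

/-- the polynomial with given coefficients -/
noncomputable def poly (c : ℕ → ℤ) (s : ℕ) : A :=
  ∑ i ∈ Finset.range s, AddMonoidAlgebra.single (i : ℤ) (c i)

theorem rho_poly (t : ℕ) [NeZero t] (a : ℕ) (c : ℕ → ℤ) (j : ZMod t) :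
    (rho a t (poly c t)).coeff j = ((c j.val : ℤ) : ZMod a) := by
  rw [poly, map_sum]
  simp only [rho_single]
  have h1 : (∑ i ∈ Finset.range t, (AddMonoidAlgebra.single (((i : ℕ) : ℤ) : ZMod t)
      ((c i : ℤ) : ZMod a) : AddMonoidAlgebra (ZMod a) (ZMod t))).coeff =
      ∑ i ∈ Finset.range t, Finsupp.single (((i : ℕ) : ℤ) : ZMod t) ((c i : ℤ) : ZMod a) := by
    rw [AddMonoidAlgebra.coeff_sum]
    rfl
  rw [h1, Finsupp.finsetSum_apply, Finset.sum_eq_single j.val]
  · rw [Int.cast_natCast, ZMod.natCast_zmod_val, Finsupp.single_eq_same]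
  · intro i hi hij
    rw [Finsupp.single_apply, if_neg]
    intro h
    apply hij
    rw [← h, Int.cast_natCast, ZMod.val_natCast, Nat.mod_eq_of_lt (Finset.mem_range.mp hi)]
  · intro h
    exact absurd (Finset.mem_range.mpr (ZMod.val_lt j)) h

section Diam

variable {S : Set G} (hS : Subgroup.closure S = ⊤)
include hS

theorem len_const {L : ℕ} (hL : wordLen S (el 0 1) ≤ L) (c : ℕ) :
    wordLen S (el 0 (AddMonoidAlgebra.single 0 (c : ℤ))) ≤ L * c := by
  have h1 : ∀ c : ℕ, el 0 (AddMonoidAlgebra.single 0 (c : ℤ)) = (el 0 1) ^ c := by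
    intro c
    induction c with
    | zero => simp [el_one]
    | succ c ih =>
      rw [pow_succ, ← ih, el_mul]
      congr 1
      rw [T_zero, one_mul, Nat.cast_succ, AddMonoidAlgebra.single_add]
      rfl
  rw [h1]
  calc wordLen S (el 0 1 ^ c) ≤ c * wordLen S (el 0 1) := wordLen_pow hS _ _
    _ ≤ c * L := Nat.mul_le_mul_left _ hL
    _ = L * c := mul_comm _ _

theorem len_shift {L : ℕ} (hL : wordLen S (el 1 0) ≤ L) (n : ℕ) :
    wordLen S (el n 0) ≤ L * n := by
  have h1 : ∀ n : ℕ, el n 0 = (el 1 0) ^ n := by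
    intro n
    induction n with
    | zero => simp [el_one]
    | succ n ih =>
      rw [pow_succ, ← ih, el_mul]
      simp
  rw [h1]
  calc wordLen S (el 1 0 ^ n) ≤ n * wordLen S (el 1 0) := wordLen_pow hS _ _
    _ ≤ n * L := Nat.mul_le_mul_left _ hL
    _ = L * n := mul_comm _ _

theorem len_poly {L : ℕ} (h0 : wordLen S (el 0 1) ≤ L) (h1 : wordLen S (el 1 0) ≤ L)
    (c : ℕ → ℕ) (B : ℕ) (hc : ∀ i, c i + 1 ≤ B) (s : ℕ) :
    wordLen S (el s (poly (fun i => (c i : ℤ)) s)) ≤ L * (B * s) := by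
  induction s with
  | zero =>
    have : el ((0 : ℕ) : ℤ) (poly (fun i => (c i : ℤ)) 0) = 1 := by
      rw [el_one]; simp [poly]
    rw [this, wordLen_one]
    exact Nat.zero_le _
  | succ s ih =>
    have : el ((s + 1 : ℕ) : ℤ) (poly (fun i => (c i : ℤ)) (s + 1)) =
        el s (poly (fun i => (c i : ℤ)) s) * el 0 (AddMonoidAlgebra.single 0 (c s : ℤ)) *
          el 1 0 := by
      rw [el_mul, el_mul, poly, Finset.sum_range_succ]
      congr 1
      rw [mul_zero, add_zero, T, AddMonoidAlgebra.single_mul_single, add_zero, one_mul]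
      rfl
    rw [this]
    have e1 := wordLen_mul hS (el s (poly (fun i => (c i : ℤ)) s) *
      el 0 (AddMonoidAlgebra.single 0 (c s : ℤ))) (el 1 0)
    have e2 := wordLen_mul hS (el s (poly (fun i => (c i : ℤ)) s))
      (el 0 (AddMonoidAlgebra.single 0 (c s : ℤ)))
    have e3 := len_const hS h0 (c s)
    have e4 := hc s
    have e5 : L * (c s + 1) ≤ L * B := Nat.mul_le_mul_left _ e4
    calc _ ≤ L * (B * s) + L * c s + L := by omega
      _ = L * (B * s) + L * (c s + 1) := by ring
      _ ≤ L * (B * s) + L * B := by omega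
      _ = L * (B * (s + 1)) := by ring

/-- the diameter of the wreath product `(ℤ/t) ≀ (ℤ/t)` is quadratic -/
theorem diam_rho : ∃ L : ℕ, ∀ t : ℕ, 2 ≤ t →
    diam S (congr (RingHom.ker (rho t t))) ≤ L * (t * t + t) := by
  refine ⟨max (wordLen S (el 0 1)) (wordLen S (el 1 0)), fun t ht => ?_⟩
  set L := max (wordLen S (el 0 1)) (wordLen S (el 1 0)) with hL
  have hne : NeZero t := ⟨by omega⟩
  apply diam_le
  intro q
  obtain ⟨g, rfl⟩ := QuotientGroup.mk'_surjective _ q
  obtain ⟨n, P, rfl⟩ := exists_el g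
  set c : ℕ → ℕ := fun i => ((rho t t P).coeff (i : ZMod t)).val with hc
  set r : ℕ := ((n : ℤ) : ZMod t).val with hr
  have heq : (QuotientGroup.mk' (congr (RingHom.ker (rho t t)))) (el n P) =
      (QuotientGroup.mk' (congr (RingHom.ker (rho t t))))
        (el t (poly (fun i => (c i : ℤ)) t) * el r 0) := by
    rw [QuotientGroup.mk'_apply, QuotientGroup.mk'_apply, QuotientGroup.eq, el_mul, inv_mul_mem]
    constructor
    · rw [RingHom.mem_ker, map_sub, rho_T, rho_T]
      have : (((t : ℤ) + (r : ℤ) : ℤ) : ZMod t) = (n : ZMod t) := by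
        push_cast
        rw [ZMod.natCast_self, zero_add, hr, ZMod.natCast_zmod_val]
      rw [this, sub_self]
    · rw [RingHom.mem_ker, map_sub, mul_zero, add_zero, sub_eq_zero]
      apply AddMonoidAlgebra.ext
      ext j
      rw [rho_poly, hc]
      simp only [Int.cast_natCast, ZMod.natCast_zmod_val]
  rw [heq]
  refine (wordLen_map _ hS _).trans ?_
  refine (wordLen_mul hS _ _).trans ?_
  have h1 := len_poly hS (L := L) (le_max_left _ _) (le_max_right _ _) c t
    (fun i => ZMod.val_lt _) t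
  have h2 := len_shift hS (L := L) (le_max_right _ _) r
  have h3 : r < t := ZMod.val_lt _
  have h4 : L * r ≤ L * t := Nat.mul_le_mul_left _ h3.le
  calc _ ≤ L * (t * t) + L * t := by omega
    _ = _ := by ring

end Diam

theorem card_rho {t : ℕ} (ht : 2 ≤ t) :
    2 ^ t ≤ Nat.card (G ⧸ congr (RingHom.ker (rho t t))) := by
  classical
  have hne : NeZero t := ⟨by omega⟩
  have hfin : Finite (A ⧸ RingHom.ker (rho t t)) := finite_of_ker (rho t t) _ rfl
  have hfin' := finite_quot (RingHom.ker (rho t t))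
  let f : (ZMod t → Bool) → G ⧸ congr (RingHom.ker (rho t t)) := fun c =>
    QuotientGroup.mk (el 0 (poly (fun i => if c (i : ZMod t) then 1 else 0) t))
  have hinj : Function.Injective f := by
    intro c c' h
    simp only [f] at h
    rw [QuotientGroup.eq, inv_mul_mem] at h
    have h1 := h.2
    rw [RingHom.mem_ker, map_sub, sub_eq_zero] at h1
    funext j
    have h2 : (rho t t (poly (fun i => if c' (i : ZMod t) then 1 else 0) t)).coeff j =
        (rho t t (poly (fun i => if c (i : ZMod t) then 1 else 0) t)).coeff j := by rw [h1]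
    rw [rho_poly, rho_poly, ZMod.natCast_zmod_val] at h2
    have h10 : ((1 : ℤ) : ZMod t) ≠ ((0 : ℤ) : ZMod t) := by
      have : Fact (1 < t) := ⟨by omega⟩
      simp
    by_cases hc : c j <;> by_cases hc' : c' j <;> simp_all
  have h3 := Nat.card_le_card_of_injective f hinj
  have h4 : Nat.card (ZMod t → Bool) = 2 ^ t := by
    rw [Nat.card_fun, Nat.card_zmod]
    simp
  rwa [h4] at h3

/-- the ideals of the second question -/
noncomputable def J (k : ℕ) : Ideal A := RingHom.ker (rho (2 ^ (k + 1)) (2 ^ (k + 1)))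

theorem J_congr : IsCongruenceFiltration J := by
  apply isCongr
  · intro k
    apply ker_mono <;> exact pow_dvd_pow 2 (by omega)
  · intro k
    exact finite_of_ker (rho (2 ^ (k + 1)) (2 ^ (k + 1))) _ rfl
  · intro P hP
    apply eq_zero_of_forall (t := fun k => 2 ^ (k + 1))
    · intro N
      exact ⟨N, (Nat.lt_two_pow_self).le.trans (Nat.pow_le_pow_right (by norm_num) (by omega))⟩
    · intro k
      exact hP k

open Filter Topology in
theorem not_D {S : Set G} (hS : Subgroup.closure S = ⊤) {α : ℝ} (hα : 0 < α) :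
    ¬ PropertyD S (fun k => congr (J k)) α := by
  rintro ⟨K, hK, h⟩
  obtain ⟨L, hL⟩ := diam_rho hS
  set r : ℝ := 2 ^ α with hr
  have hr1 : 1 < r := Real.one_lt_rpow (by norm_num) hα
  have hlim : Tendsto (fun n : ℕ => (n : ℝ) ^ 2 / r ^ n) atTop (𝓝 0) :=
    tendsto_pow_const_div_const_pow_of_one_lt 2 hr1
  have ht : Tendsto (fun k : ℕ => 2 ^ (k + 1)) atTop atTop :=
    (tendsto_pow_atTop_atTop_of_one_lt (by norm_num : (1 : ℕ) < 2)).comp (tendsto_add_atTop_nat 1)
  have hlim' := hlim.comp ht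
  have hpos : (0 : ℝ) < K / (2 * L + 1) := by positivity
  obtain ⟨k, hk⟩ := (hlim'.eventually (gt_mem_nhds hpos)).exists
  simp only [Function.comp] at hk
  set t : ℕ := 2 ^ (k + 1) with htt
  have ht2 : 2 ≤ t := by
    rw [htt]
    calc 2 = 2 ^ 1 := rfl
      _ ≤ 2 ^ (k + 1) := Nat.pow_le_pow_right (by norm_num) (by omega)
  have h1 := h k
  have h2 : (diam S (congr (J k)) : ℝ) ≤ ((L * (t * t + t) : ℕ) : ℝ) := by
    exact_mod_cast hL t ht2
  have h3 : ((2 : ℝ) ^ t) ≤ (Nat.card (G ⧸ congr (J k)) : ℝ) := by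
    exact_mod_cast card_rho ht2
  have h4 : r ^ t ≤ (Nat.card (G ⧸ congr (J k)) : ℝ) ^ α := by
    have : r ^ t = ((2 : ℝ) ^ t) ^ α := by
      rw [hr, ← Real.rpow_natCast, ← Real.rpow_natCast, ← Real.rpow_mul (by norm_num),
        ← Real.rpow_mul (by norm_num), mul_comm]
    rw [this]
    exact Real.rpow_le_rpow (by positivity) h3 hα.le
  have h5 : K * r ^ t ≤ 2 * L * (t : ℝ) ^ 2 := by
    calc K * r ^ t ≤ K * (Nat.card (G ⧸ congr (J k)) : ℝ) ^ α := by gcongr
      _ ≤ ((L * (t * t + t) : ℕ) : ℝ) := h1.trans h2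
      _ ≤ 2 * L * (t : ℝ) ^ 2 := by
        push_cast
        have : (1 : ℝ) ≤ t := by exact_mod_cast (by omega : 1 ≤ t)
        have hL0 : (0 : ℝ) ≤ L := by positivity
        nlinarith [mul_nonneg hL0 (by nlinarith : (0 : ℝ) ≤ (t : ℝ) * (t - 1))]
  have hrt : (0 : ℝ) < r ^ t := by positivity
  rw [div_lt_div_iff₀ hrt (by positivity)] at hk
  nlinarith [sq_nonneg (t : ℝ)]

end Q29.BX
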