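import Pool.Agent.Q29.BX.Defs

/-!
# Word length, quotients and the group `G`
-/

open LaurentPolynomial

namespace Q29.BX

section Word

variable {H : Type*} [Group H]

theorem wordLen_le {S : Set H} (l : List H) (hl : ∀ x ∈ l, x ∈ S ∨ x⁻¹ ∈ S) :
    wordLen S l.prod ≤ l.length :=
  Nat.sInf_le ⟨l, rfl, hl, rfl⟩

theorem exists_word {S : Set H} (hS : Subgroup.closure S = ⊤) (g : H) :
    ∃ l : List H, l.length = wordLen S g ∧ (∀ x ∈ l, x ∈ S ∨ x⁻¹ ∈ S) ∧ l.prod = g := by
  have hne : {n : ℕ | ∃ l : List H, l.length = n ∧ (∀ x ∈ l, x ∈ S ∨ x⁻¹ ∈ S) ∧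
      l.prod = g}.Nonempty := by
    have hg : g ∈ Subgroup.closure S := hS ▸ Subgroup.mem_top g
    rw [← Subgroup.mem_toSubmonoid, Subgroup.closure_toSubmonoid] at hg
    obtain ⟨l, hl, hp⟩ := Submonoid.exists_list_of_mem_closure hg
    exact ⟨l.length, l, rfl, fun x hx => by simpa using hl x hx, hp⟩
  exact Nat.sInf_mem hne

theorem wordLen_one (S : Set H) : wordLen S (1 : H) = 0 := by
  have := wordLen_le (S := S) ([] : List H) (by simp)
  simpa using this

theorem wordLen_mul {S : Set H} (hS : Subgroup.closure S = ⊤) (g h : H) :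
    wordLen S (g * h) ≤ wordLen S g + wordLen S h := by
  obtain ⟨l, hl, hs, rfl⟩ := exists_word hS g
  obtain ⟨l', hl', hs', rfl⟩ := exists_word hS h
  rw [← hl, ← hl', ← List.prod_append, ← List.length_append]
  apply wordLen_le
  intro x hx
  rw [List.mem_append] at hx
  exact hx.elim (hs x) (hs' x)

theorem wordLen_pow {S : Set H} (hS : Subgroup.closure S = ⊤) (g : H) (m : ℕ) :
    wordLen S (g ^ m) ≤ m * wordLen S g := by
  induction m with
  | zero => simp [wordLen_one]
  | succ m ih =>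
    rw [pow_succ]
    have := wordLen_mul hS (g ^ m) g
    linarith [this, ih, Nat.succ_mul m (wordLen S g)]

/-- the image of a word -/
theorem wordLen_map {K : Type*} [Group K] (φ : H →* K) {S : Set H}
    (hS : Subgroup.closure S = ⊤) (g : H) : wordLen (φ '' S) (φ g) ≤ wordLen S g := by
  obtain ⟨l, hl, hs, rfl⟩ := exists_word hS g
  rw [← hl, map_list_prod, ← List.length_map (f := φ)]
  apply wordLen_le
  intro x hx
  rw [List.mem_map] at hx
  obtain ⟨y, hy, rfl⟩ := hx
  rcases hs y hy with h | h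
  · exact Or.inl ⟨y, h, rfl⟩
  · exact Or.inr ⟨y⁻¹, h, map_inv φ y⟩

/-- lifting words -/
theorem exists_lift {K : Type*} [Group K] (φ : H →* K) (hφ : Function.Surjective φ) {S : Set H}
    (hS : Subgroup.closure S = ⊤) (q : K) :
    ∃ l : List H, l.length = wordLen (φ '' S) q ∧ (∀ x ∈ l, x ∈ S ∨ x⁻¹ ∈ S) ∧
      φ l.prod = q := by
  have hS' : Subgroup.closure (φ '' S) = ⊤ := by
    rw [← MonoidHom.map_closure, hS, ← MonoidHom.range_eq_map, MonoidHom.range_eq_top]
    exact hφ
  obtain ⟨l, hl, hs, rfl⟩ := exists_word hS' q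
  rw [← hl]
  clear hl
  induction l with
  | nil => exact ⟨[], rfl, by simp, by simp⟩
  | cons x l ih =>
    obtain ⟨l', h1, h2, h3⟩ := ih fun y hy => hs y (by simp [hy])
    rcases hs x (by simp) with ⟨s, hs1, rfl⟩ | ⟨s, hs1, hs2⟩
    · refine ⟨s :: l', by simp [h1], ?_, by simp [h3]⟩
      intro y hy
      rw [List.mem_cons] at hy
      rcases hy with rfl | hy
      · exact Or.inl hs1
      · exact h2 y hy
    · refine ⟨s⁻¹ :: l', by simp [h1], ?_, ?_⟩
      · intro y hy
        rw [List.mem_cons] at hy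
        rcases hy with rfl | hy
        · exact Or.inr (by simpa using hs1)
        · exact h2 y hy
      · rw [List.prod_cons, map_mul, map_inv, hs2, inv_inv, h3, List.prod_cons]

theorem le_diam (S : Set H) (N : Subgroup H) [N.Normal] [Finite (H ⧸ N)] (q : H ⧸ N) :
    wordLen (QuotientGroup.mk' N '' S) q ≤ diam S N :=
  le_csSup (Set.finite_range _).bddAbove ⟨q, rfl⟩

theorem diam_le (S : Set H) (N : Subgroup H) [N.Normal] (R : ℕ)
    (h : ∀ q : H ⧸ N, wordLen (QuotientGroup.mk' N '' S) q ≤ R) : diam S N ≤ R := by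
  apply csSup_le (Set.range_nonempty _)
  rintro _ ⟨q, rfl⟩
  exact h q

/-- every class has a representative which is a product of few letters -/
theorem exists_rep {S : Set H} (hS : Subgroup.closure S = ⊤) (N : Subgroup H) [N.Normal]
    [Finite (H ⧸ N)] (g : H) : ∃ l : List H, l.length ≤ diam S N ∧
      (∀ x ∈ l, x ∈ S ∨ x⁻¹ ∈ S) ∧ (l.prod)⁻¹ * g ∈ N := by
  obtain ⟨l, h1, h2, h3⟩ := exists_lift (QuotientGroup.mk' N) (QuotientGroup.mk'_surjective N) hS
    (QuotientGroup.mk' N g)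
  refine ⟨l, ?_, h2, ?_⟩
  · rw [h1]; exact le_diam S N _
  · exact QuotientGroup.eq.mp h3

end Word

/-- the element `(X^n, P; 0, 1)` of `G` -/
noncomputable def el (n : ℤ) (P : A) : G :=
  ⟨⟨!![T n, P; 0, 1], !![T (-n), -(T (-n) * P); 0, 1],
    by rw [mul_form, Matrix.one_fin_two]; simp [← mul_assoc],
    by rw [mul_form, Matrix.one_fin_two]; simp⟩, n, P, rfl⟩

theorem el_val (n : ℤ) (P : A) :
    (((el n P : G) : Matrix.GeneralLinearGroup (Fin 2) A) : Matrix (Fin 2) (Fin 2) A) =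
      !![T n, P; 0, 1] := rfl

theorem G_ext {g h : G} (H : ((g : Matrix.GeneralLinearGroup (Fin 2) A) : Matrix (Fin 2) (Fin 2) A)
    = ((h : Matrix.GeneralLinearGroup (Fin 2) A) : Matrix (Fin 2) (Fin 2) A)) : g = h :=
  Subtype.ext (Units.ext H)

theorem exists_el (g : G) : ∃ (n : ℤ) (P : A), g = el n P := by
  obtain ⟨n, P, h⟩ := g.2
  exact ⟨n, P, G_ext (by rw [el_val]; exact h)⟩

theorem el_mul (n m : ℤ) (P Q : A) : el n P * el m Q = el (n + m) (P + T n * Q) := by
  apply G_ext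
  rw [Subgroup.coe_mul, Units.val_mul, el_val, el_val, el_val, mul_form]

theorem el_one : (1 : G) = el 0 0 := by
  apply G_ext
  rw [el_val, OneMemClass.coe_one, Units.val_one, Matrix.one_fin_two, T_zero]

theorem el_inv (n : ℤ) (P : A) : (el n P)⁻¹ = el (-n) (-(T (-n) * P)) := by
  rw [inv_eq_iff_mul_eq_one, el_mul, el_one]
  congr 1
  · ring
  · rw [mul_neg, ← mul_assoc, ← T_add, add_neg_cancel, T_zero, one_mul, add_neg_cancel]

theorem T_inj {n m : ℤ} (h : (T n : A) = T m) : n = m := by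
  have h1 : (T n : A).coeff m = (T m : A).coeff m := by rw [h]
  rw [T_apply, T_apply, if_pos rfl] at h1
  by_contra hne
  rw [if_neg hne] at h1
  exact zero_ne_one h1

theorem el_inj {n m : ℤ} {P Q : A} (h : el n P = el m Q) : n = m ∧ P = Q := by
  have h1 : (!![T n, P; 0, 1] : Matrix (Fin 2) (Fin 2) A) = !![T m, Q; 0, 1] := by
    rw [← el_val, ← el_val, h]
  constructor
  · exact T_inj (by simpa using congrFun (congrFun h1 0) 0)
  · simpa using congrFun (congrFun h1 0) 1

theorem mem_congr (I : Ideal A) (n : ℤ) (P : A) :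
    el n P ∈ congr I ↔ T n - 1 ∈ I ∧ P ∈ I := by
  unfold congr
  rw [Subgroup.mem_subgroupOf, MonoidHom.mem_ker]
  constructor
  · intro h
    have h1 : ((Matrix.GeneralLinearGroup.map (n := Fin 2) (Ideal.Quotient.mk I)
        (el n P : Matrix.GeneralLinearGroup (Fin 2) A) :
          Matrix.GeneralLinearGroup (Fin 2) (A ⧸ I)) : Matrix (Fin 2) (Fin 2) (A ⧸ I)) = 1 := by
      rw [h]; rfl
    constructor
    · have := congrFun (congrFun h1 0) 0
      rw [← Ideal.Quotient.mk_eq_mk_iff_sub_mem]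
      simpa [el_val] using this
    · have := congrFun (congrFun h1 0) 1
      rw [← Ideal.Quotient.eq_zero_iff_mem]
      simpa [el_val] using this
  · rintro ⟨h1, h2⟩
    rw [← Ideal.Quotient.mk_eq_mk_iff_sub_mem] at h1
    rw [← Ideal.Quotient.eq_zero_iff_mem] at h2
    apply Units.ext
    ext i j
    fin_cases i <;> fin_cases j <;> simp [el_val, h1, h2]

theorem inv_mul_mem (I : Ideal A) (n m : ℤ) (P Q : A) :
    (el n P)⁻¹ * el m Q ∈ congr I ↔ T m - T n ∈ I ∧ Q - P ∈ I := by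
  rw [el_inv, el_mul, mem_congr]
  have e1 : T (-n) * (T m - T n) = (T (-n + m) - 1 : A) := by
    rw [mul_sub, ← T_add, ← T_add, neg_add_cancel, T_zero]
  have e2 : T n * (T (-n + m) - 1) = (T m - T n : A) := by
    rw [mul_sub, ← T_add, mul_one, add_neg_cancel_left]
  have e3 : T (-n) * (Q - P) = -(T (-n) * P) + T (-n) * Q := by ring
  have e4 : T n * (-(T (-n) * P) + T (-n) * Q) = Q - P := by
    rw [← e3, ← mul_assoc, ← T_add, add_neg_cancel, T_zero, one_mul]
  constructor
  · rintro ⟨h1, h2⟩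
    exact ⟨e2 ▸ I.mul_mem_left _ h1, e4 ▸ I.mul_mem_left _ h2⟩
  · rintro ⟨h1, h2⟩
    exact ⟨e1 ▸ I.mul_mem_left _ h1, e3 ▸ I.mul_mem_left _ h2⟩

end Q29.BX
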