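import Pool.Agent.Q29.BX.Gen

/-!
# The ring homomorphisms `ℤ[X, X⁻¹] → (ℤ/a)[X]/(X^b - 1)`
-/

open LaurentPolynomial

namespace Q29.BX

/-- reduction of the coefficients mod `a` and of the exponents mod `b` -/
noncomputable def rho (a b : ℕ) : A →+* AddMonoidAlgebra (ZMod a) (ZMod b) :=
  (AddMonoidAlgebra.mapRingHom (ZMod b) (Int.castRingHom (ZMod a))).comp
    (AddMonoidAlgebra.mapDomainRingHom ℤ (Int.castAddHom (ZMod b)))

theorem rho_coeff {a b : ℕ} (P : A) {S : Set ℤ} (hP : (P.coeff.support : Set ℤ) ⊆ S)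
    (hS : Set.InjOn (fun i : ℤ => (i : ZMod b)) S) {i : ℤ} (hi : i ∈ S) :
    (rho a b P).coeff (i : ZMod b) = ((P.coeff i : ℤ) : ZMod a) := by
  rw [rho, RingHom.comp_apply, AddMonoidAlgebra.coeff_mapRingHom]
  have h1 : (AddMonoidAlgebra.mapDomainRingHom ℤ (Int.castAddHom (ZMod b)) P).coeff =
      Finsupp.mapDomain (fun i : ℤ => (i : ZMod b)) P.coeff := rfl
  rw [h1, Finsupp.mapDomain_apply' S P.coeff hP hS hi]
  rfl

theorem rho_factor {a b a' b' : ℕ} (ha : a ∣ a') (hb : b ∣ b') :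
    ((AddMonoidAlgebra.mapRingHom (ZMod b) (ZMod.castHom ha (ZMod a))).comp
      (AddMonoidAlgebra.mapDomainRingHom (ZMod a')
        ((ZMod.castHom hb (ZMod b) : ZMod b' →+* ZMod b) : ZMod b' →+ ZMod b))).comp (rho a' b') =
      rho a b := by
  have key : ∀ (n r : ℤ), ((AddMonoidAlgebra.mapRingHom (ZMod b) (ZMod.castHom ha (ZMod a))).comp
      (AddMonoidAlgebra.mapDomainRingHom (ZMod a')
        ((ZMod.castHom hb (ZMod b) : ZMod b' →+* ZMod b) : ZMod b' →+ ZMod b))).comp (rho a' b')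
        (AddMonoidAlgebra.single n r) = rho a b (AddMonoidAlgebra.single n r) := by
    intro n r
    simp only [rho, RingHom.comp_apply, AddMonoidAlgebra.mapDomainRingHom_apply,
      AddMonoidAlgebra.mapDomain_single, AddMonoidAlgebra.mapRingHom_single]
    congr 1
    · simp
    · simp
  exact AddMonoidAlgebra.ringHom_ext (fun r => key 0 r) (fun n => key n 1)

theorem ker_mono {a b a' b' : ℕ} (ha : a ∣ a') (hb : b ∣ b') :
    RingHom.ker (rho a' b') ≤ RingHom.ker (rho a b) := by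
  intro P hP
  rw [RingHom.mem_ker] at hP ⊢
  rw [← rho_factor ha hb, RingHom.comp_apply, hP, map_zero]

instance (a b : ℕ) [NeZero a] [NeZero b] : Finite (AddMonoidAlgebra (ZMod a) (ZMod b)) := by
  have : Finite (ZMod b →₀ ZMod a) := inferInstance
  exact Finite.of_equiv _ (AddMonoidAlgebra.coeffEquiv (R := ZMod a) (M := ZMod b)).symm

theorem injOn_Ico (b : ℕ) (n : ℤ) :
    Set.InjOn (fun i : ℤ => (i : ZMod b)) (Set.Ico n (n + b)) := by
  intro i hi j hj h
  simp only at h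
  rw [ZMod.intCast_eq_intCast_iff_dvd_sub] at h
  obtain ⟨c, hc⟩ := h
  rw [Set.mem_Ico] at hi hj
  have h1 : (b : ℤ) * c < b := by omega
  have h2 : -(b : ℤ) < b * c := by omega
  have hb : (0 : ℤ) < b := by omega
  have h3 : c < 1 := by nlinarith
  have h4 : -1 < c := by nlinarith
  have h5 : c = 0 := by omega
  rw [h5] at hc
  omega

/-- if `X^n - 1` is in the kernel then `b ∣ n` -/
theorem dvd_of_mem {a b : ℕ} (ha : 2 ≤ a) {n : ℤ} (h : rho a b (T n - 1) = 0) : (b : ℤ) ∣ n := by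
  by_contra hn
  have hn0 : ¬ n = 0 := fun h => hn (h ▸ dvd_zero _)
  have hinj : Set.InjOn (fun i : ℤ => (i : ZMod b)) ({0, n} : Set ℤ) := by
    have hne : ¬ ((n : ℤ) : ZMod b) = 0 := by
      rw [ZMod.intCast_zmod_eq_zero_iff_dvd]
      exact hn
    intro i hi j hj hij
    simp only [Set.mem_insert_iff, Set.mem_singleton_iff] at hi hj
    rcases hi with rfl | rfl <;> rcases hj with rfl | rfl
    · rfl
    · exact absurd (by simpa using hij.symm) hne
    · exact absurd (by simpa using hij) hne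
    · rfl
  have hc0 : ((T n - 1 : A)).coeff 0 = -1 := by
    have : ((T n - 1 : A)).coeff 0 = (T n : A).coeff 0 - (T 0 : A).coeff 0 := by
      rw [T_zero]; rfl
    rw [this, T_apply, T_apply, if_neg hn0, if_pos rfl]
    rfl
  have hsupp : ((T n - 1 : A).coeff.support : Set ℤ) ⊆ ({0, n} : Set ℤ) := by
    intro i hi
    simp only [Finset.mem_coe, Finsupp.mem_support_iff] at hi
    by_contra hcon
    simp only [Set.mem_insert_iff, Set.mem_singleton_iff, not_or] at hcon
    apply hi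
    have : ((T n - 1 : A)).coeff i = (T n : A).coeff i - (T 0 : A).coeff i := by
      rw [T_zero]; rfl
    rw [this, T_apply, T_apply, if_neg (Ne.symm hcon.2), if_neg (Ne.symm hcon.1), sub_zero]
  have h1 := rho_coeff (a := a) (b := b) (T n - 1) hsupp hinj (i := 0) (by simp)
  rw [h, hc0] at h1
  have h2 : ((-1 : ℤ) : ZMod a) = 0 := by rw [← h1]; rfl
  rw [ZMod.intCast_zmod_eq_zero_iff_dvd] at h2
  have := Int.le_of_dvd (by norm_num) ((dvd_neg).mp h2)
  omega

/-- a Laurent polynomial in all the kernels of `rho (t k) (t k)` is zero -/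
theorem eq_zero_of_forall {t : ℕ → ℕ} (ht : ∀ N, ∃ k, N ≤ t k) {P : A}
    (h : ∀ k, rho (t k) (t k) P = 0) : P = 0 := by
  apply LaurentPolynomial.ext
  intro i
  obtain ⟨B, hB⟩ : ∃ B : ℕ, ∀ j ∈ insert i P.coeff.support, j.natAbs ≤ B := by
    refine ⟨∑ j ∈ insert i P.coeff.support, j.natAbs, fun j hj => ?_⟩
    exact Finset.single_le_sum (f := fun j : ℤ => j.natAbs) (fun _ _ => Nat.zero_le _) hj
  obtain ⟨k, hk⟩ := ht (2 * B + 1 + (P.coeff i).natAbs)
  have h1 := rho_coeff (a := t k) (b := t k) P (S := Set.Ico (-(B : ℤ)) (-(B : ℤ) + t k)) (by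
    intro j hj
    have := hB j (Finset.mem_insert_of_mem hj)
    rw [Set.mem_Ico]
    omega) (injOn_Ico _ _) (i := i) (by
    have := hB i (Finset.mem_insert_self _ _)
    rw [Set.mem_Ico]
    omega)
  rw [h k] at h1
  have h2 : ((P.coeff i : ℤ) : ZMod (t k)) = 0 := by rw [← h1]; rfl
  rw [ZMod.intCast_zmod_eq_zero_iff_dvd] at h2
  by_contra hne
  have hne' : P.coeff i ≠ 0 := hne
  have h3 := Int.natAbs_dvd_natAbs.mpr h2
  rw [Int.natAbs_natCast] at h3
  have := Nat.le_of_dvd (Int.natAbs_pos.mpr hne') h3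
  omega

end Q29.BX
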