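import Mathlib
import Pool.Agent.Q29.BX.Fam

/-!
# Properties of slope types for all CM fields
-/

set_option autoImplicit false
set_option linter.unusedSectionVars false
set_option linter.unusedVariables false

namespace Pool.Agent.Q29.BX

open NumberField Module Pool.Agent.H204R3.CM Pool.Agent.H977R3.CM Pool.Agent.Q29.OS
  Pool.Agent.Q29.TE

theorem allFields {Q : TypeProperty} (h : WithoutRelations Q) : AllFields Q := by
  intro p _ ν I _ K _ _ _ m g hind hg
  refine fam_box K m g hg (fun D => ∀ Φ : ∀ i, Set (K i →+* ℂ), (∀ i, IsCMType (Φ i)) →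
    (∀ i, ∀ φ ∈ Φ i, 0 ≤ D i φ) → Q p _ ν I _ K _ _ _ (fun i φ => |D i φ|) Φ) ?_
  intro D hD hno Φ hΦ hpos
  refine h p ν I K (fun i φ => |D i φ|) Φ hind (fun i φ => ?_) hΦ fun i =>
    noRelations_of_abs (hΦ i) (fun φ => (hD i φ).1) (hpos i) (hno i)
  rw [(hD i φ).1, abs_neg]

end Pool.Agent.Q29.BX
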